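import Pool.Agent.H242.GX.Stm2

/-!
# GX-SIGP: strictly convex functions on the line which are invariant under `t ↦ -t / (1 + c t)`
-/

set_option autoImplicit false

open Set Filter Topology
open scoped ContDiff

namespace Pool.Agent.H372.GX

open Pool.Agent.H242.GX

theorem gx_SIGP : S_SIGP := by
  intro U Y z v r c hU hz hY hr heven hpos
  -- the line
  have hL : ∀ t : ℝ, HasDerivAt (fun t : ℝ => z + t • v) v t := by
    intro t
    have h := ((hasDerivAt_id t).smul_const v).const_add z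
    simpa using h
  have hLc : Continuous (fun t : ℝ => z + t • v) := by fun_prop
  have h0U : (fun t : ℝ => z + t • v) 0 ∈ U := by
    simpa using hz
  have hev1 : ∀ᶠ t : ℝ in 𝓝 0, z + t • v ∈ U := hLc.continuousAt.eventually (hU.mem_nhds h0U)
  have hd1 : ContDiffOn ℝ ∞ (fderiv ℝ Y) U := hY.fderiv_of_isOpen hU (by simp)
  have hd2 : ContDiffOn ℝ ∞ (fderiv ℝ (fderiv ℝ Y)) U := hd1.fderiv_of_isOpen hU (by simp)
  have hf1 : ∀ t : ℝ, z + t • v ∈ U →
      HasDerivAt (fun t : ℝ => Y (z + t • v)) (fderiv ℝ Y (z + t • v) v) t := by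
    intro t ht
    have h1 : HasFDerivAt Y (fderiv ℝ Y (z + t • v)) (z + t • v) :=
      ((hY.contDiffAt (hU.mem_nhds ht)).differentiableAt (by simp)).hasFDerivAt
    exact h1.comp_hasDerivAt t (hL t)
  have hf2 : ∀ t : ℝ, z + t • v ∈ U →
      HasDerivAt (fun t : ℝ => fderiv ℝ Y (z + t • v) v)
        (fderiv ℝ (fderiv ℝ Y) (z + t • v) v v) t := by
    intro t ht
    have h1 : HasFDerivAt (fderiv ℝ Y) (fderiv ℝ (fderiv ℝ Y) (z + t • v)) (z + t • v) :=
      ((hd1.contDiffAt (hU.mem_nhds ht)).differentiableAt (by simp)).hasFDerivAt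
    have h2 := h1.comp_hasDerivAt t (hL t)
    exact (ContinuousLinearMap.apply ℝ ℝ v).hasFDerivAt.comp_hasDerivAt t h2
  -- the second derivative is positive near `0`
  have hc2 : ContinuousAt (fun t : ℝ => fderiv ℝ (fderiv ℝ Y) (z + t • v) v v) 0 := by
    have h1 : ContinuousAt (fderiv ℝ (fderiv ℝ Y)) ((fun t : ℝ => z + t • v) 0) :=
      (hd2.contDiffAt (hU.mem_nhds h0U)).continuousAt
    have h2 : ContinuousAt (fun t : ℝ => fderiv ℝ (fderiv ℝ Y) (z + t • v)) 0 :=
      ContinuousAt.comp (f := fun t : ℝ => z + t • v) h1 hLc.continuousAt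
    exact (h2.clm_apply continuousAt_const).clm_apply continuousAt_const
  have hev2 : ∀ᶠ t : ℝ in 𝓝 0, 0 < fderiv ℝ (fderiv ℝ Y) (z + t • v) v v := by
    refine hc2.eventually_const_lt ?_
    simpa using hpos
  have hev3 : ∀ᶠ t : ℝ in 𝓝 0, |t| < r := by
    have h1 : ContinuousAt (fun t : ℝ => |t|) 0 := continuous_abs.continuousAt
    refine h1.eventually_lt_const ?_
    simpa using hr
  obtain ⟨ρ, hρ, hρs⟩ := Metric.eventually_nhds_iff.1 (hev1.and (hev2.and hev3))
  have hρ' : ∀ t : ℝ, |t| < ρ → z + t • v ∈ U ∧ 0 < fderiv ℝ (fderiv ℝ Y) (z + t • v) v v ∧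
      |t| < r := by
    intro t ht
    apply hρs
    rw [Real.dist_eq, sub_zero]
    exact ht
  -- the first derivative vanishes at `0`
  have hf10 : fderiv ℝ Y (z + (0 : ℝ) • v) v = 0 := by
    have h1 := hf1 0 h0U
    have h2 : HasDerivAt (fun t : ℝ => Y (z + (-t / (1 + c * t)) • v))
        (-(fderiv ℝ Y (z + (0 : ℝ) • v) v)) 0 := by
      have h3 : HasDerivAt (fun t : ℝ => -t / (1 + c * t)) (-1) 0 := by
        have ha : HasDerivAt (fun t : ℝ => -t) (-1) 0 := hasDerivAt_neg 0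
        have hb : HasDerivAt (fun t : ℝ => 1 + c * t) (c * 1) 0 :=
          ((hasDerivAt_id (0 : ℝ)).const_mul c).const_add 1
        have hc := ha.div hb (by simp)
        have hd : (-1 * (1 + c * 0) - -0 * (c * 1)) / (1 + c * 0) ^ 2 = (-1 : ℝ) := by ring
        rw [hd] at hc
        exact hc
      have h4 : HasDerivAt (fun t : ℝ => Y (z + t • v)) (fderiv ℝ Y (z + (0 : ℝ) • v) v)
          (-0 / (1 + c * 0)) := by
        have he : (-0 / (1 + c * 0) : ℝ) = 0 := by simp
        rw [he]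
        exact h1
      have h5 := h4.scomp (0 : ℝ) h3
      have h6 : (-1 : ℝ) • fderiv ℝ Y (z + (0 : ℝ) • v) v = -(fderiv ℝ Y (z + (0 : ℝ) • v) v) := by
        rw [neg_smul, one_smul]
      rw [← h6]
      exact h5
    have h3 : (fun t : ℝ => Y (z + (-t / (1 + c * t)) • v)) =ᶠ[𝓝 0] fun t : ℝ => Y (z + t • v) := by
      filter_upwards [hev3] with t ht
      exact (heven t ht).2
    have h4 := h2.congr_of_eventuallyEq h3.symm
    have h5 := h1.unique h4
    linarith
  -- the first derivative is strictly monotone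
  have hmono : StrictMonoOn (fun t : ℝ => fderiv ℝ Y (z + t • v) v) (Ioo (-ρ) ρ) := by
    refine strictMonoOn_of_deriv_pos (convex_Ioo _ _) ?_ ?_
    · intro t ht
      exact (hf2 t (hρ' t (abs_lt.2 ht)).1).continuousAt.continuousWithinAt
    · intro t ht
      rw [interior_Ioo] at ht
      have h1 := hρ' t (abs_lt.2 ht)
      rw [(hf2 t h1.1).deriv]
      exact h1.2.1
  have hpos1 : ∀ t : ℝ, 0 < t → t < ρ → 0 < fderiv ℝ Y (z + t • v) v := by
    intro t ht1 ht2
    have h1 := hmono (show (0 : ℝ) ∈ Ioo (-ρ) ρ from ⟨by linarith, hρ⟩)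
      (show t ∈ Ioo (-ρ) ρ from ⟨by linarith, ht2⟩) ht1
    simp only [hf10] at h1
    exact h1
  have hneg1 : ∀ t : ℝ, t < 0 → -ρ < t → fderiv ℝ Y (z + t • v) v < 0 := by
    intro t ht1 ht2
    have h1 := hmono (show t ∈ Ioo (-ρ) ρ from ⟨ht2, by linarith⟩)
      (show (0 : ℝ) ∈ Ioo (-ρ) ρ from ⟨by linarith, hρ⟩) ht1
    simp only [hf10] at h1
    exact h1
  have hcp : 0 < 2 * (|c| + 1) := by positivity
  refine ⟨ρ / 2, by positivity, ?_, ?_, ?_, -1, 0, c, 1, by norm_num,
    min (ρ / 4) (1 / (2 * (|c| + 1))), lt_min (by positivity) (by positivity),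
    (min_le_left _ _).trans (by linarith), ?_⟩
  · intro t ht
    exact (hρ' t (by linarith)).1
  · refine strictAntiOn_of_deriv_neg (convex_Icc _ _) ?_ ?_
    · intro t ht
      have h1 : |t| < ρ := abs_lt.2 ⟨by linarith [ht.1], by linarith [ht.2]⟩
      exact (hf1 t (hρ' t h1).1).continuousAt.continuousWithinAt
    · intro t ht
      rw [interior_Icc] at ht
      have h1 : |t| < ρ := abs_lt.2 ⟨by linarith [ht.1], by linarith [ht.2]⟩
      rw [(hf1 t (hρ' t h1).1).deriv]
      exact hneg1 t ht.2 (by linarith [ht.1])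
  · refine strictMonoOn_of_deriv_pos (convex_Icc _ _) ?_ ?_
    · intro t ht
      have h1 : |t| < ρ := abs_lt.2 ⟨by linarith [ht.1], by linarith [ht.2]⟩
      exact (hf1 t (hρ' t h1).1).continuousAt.continuousWithinAt
    · intro t ht
      rw [interior_Icc] at ht
      have h1 : |t| < ρ := abs_lt.2 ⟨by linarith [ht.1], by linarith [ht.2]⟩
      rw [(hf1 t (hρ' t h1).1).deriv]
      exact hpos1 t ht.1 (by linarith [ht.2])
  · intro t ht
    have ht1 : |t| < ρ / 4 := lt_of_lt_of_le ht (min_le_left _ _)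
    have ht2 : |t| < 1 / (2 * (|c| + 1)) := lt_of_lt_of_le ht (min_le_right _ _)
    have ht3 : |t| * (2 * (|c| + 1)) < 1 := (lt_div_iff₀ hcp).1 ht2
    have ht4 : |c * t| ≤ 1 / 2 := by
      rw [abs_mul]
      nlinarith [abs_nonneg t, abs_nonneg c]
    have ht5 : 1 / 2 ≤ c * t + 1 := by linarith [(abs_le.1 ht4).1]
    have ht6 : 0 < c * t + 1 := by linarith
    have h1 : (-1 * t + 0) / (c * t + 1) = -t / (1 + c * t) := by
      rw [add_comm (c * t) 1]
      congr 1
      ring
    refine ⟨ht6.ne', ?_, ?_, ?_⟩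
    · rw [abs_div, abs_of_pos ht6, div_le_iff₀ ht6]
      have h2 : |-1 * t + 0| = |t| := by
        rw [add_zero, neg_one_mul, abs_neg]
      rw [h2]
      nlinarith [abs_nonneg t]
    · intro h0
      have h2 : 0 < t ^ 2 := by positivity
      have h3 : t * ((-1 * t + 0) / (c * t + 1)) = -(t ^ 2 / (c * t + 1)) := by ring
      rw [h3]
      have h4 : 0 < t ^ 2 / (c * t + 1) := div_pos h2 ht6
      linarith
    · rw [h1]
      exact (heven t (hρ' t (by linarith)).2.2).2

end Pool.Agent.H372.GX
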